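import Pool.Agent.Q22.GX.Low
import Pool.Agent.Q22.GX.Cert1
import Pool.Agent.Q22.GX.Cert2
import Pool.Agent.Q22.GX.Cert3

/-!
# Greenberg's conjecture for all `N = 3^K` and the primes `p ≡ 2, 5` modulo `9` from `11` to `239`

Let `N = 3^K`. The even characters `θ` modulo `p N` are the `ψ ω^m` with a primitive character `ψ` modulo `3^k`,
`k ≤ K`, `1 ≤ m ≤ p - 1`, `ψ(-1) = (-1)^m`, and

  `L_p(1 - m, θ) = - (1 - ψ(p) p^(m-1)) B_{m,ψ} / m`.

For the primes `11, 29, 41, 83, 137, 167, 173, 191, 227, 239` and all `K` these values are units at all places above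
`p`, except for the trivial character (`k = 0`, `m = p - 1`).  For `p = 23, 47, 59, 101, 113, 131, 149` they are units
with the possible exception of one character, of conductor `p` or `3 p`.
-/

set_option autoImplicit false

namespace Pool.Agent.Results.MP_c2a07f_nt.ManyPrimesPowersOfThree

/-- The generalized Bernoulli number `B_{m,ψ} = N^(m-1) ∑_{a=1}^N ψ(a) B_m(a/N)`. -/
noncomputable def genBernoulli (m : ℕ) {N : ℕ} (ψ : DirichletCharacter ℂ N) : ℂ :=
  (N : ℂ) ^ (m - 1) * ∑ a ∈ Finset.Icc 1 N, ψ (a : ZMod N) *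
    (((Polynomial.bernoulli m).eval ((a : ℚ) / N) : ℚ) : ℂ)

/-- `(1 - ψ(p) p^(m-1)) B_{m,ψ} / m`, the value at `1 - m` of the `L`-function of `ψ` without Euler factor
at `p` (up to the sign). -/
noncomputable def lValue (p m : ℕ) {N : ℕ} (ψ : DirichletCharacter ℂ N) : ℂ :=
  (1 - ψ (p : ZMod N) * (p : ℂ) ^ (m - 1)) * genBernoulli m ψ / m

/-- `z` is a unit at all places above `p`: it is not zero, and for some integer `c` prime to `p` the numbers
`c z` and `c / z` are algebraic integers. -/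
def IsUnitAt (p : ℕ) (z : ℂ) : Prop :=
  z ≠ 0 ∧ ∃ c : ℤ, IsCoprime (p : ℤ) c ∧ IsIntegral ℤ ((c : ℂ) * z) ∧ IsIntegral ℤ ((c : ℂ) * z⁻¹)

/-- The primes `p ≡ 2, 5` modulo `9` from `11` to `239`, each with the exponent `m₀` of the exceptional character of
conductor dividing `3 p`; `m₀ = 0` means that there is none. -/
def table : List (ℕ × ℕ) :=
  [(11, 0), (23, 17), (29, 0), (41, 0), (47, 13), (59, 44), (83, 0), (101, 68), (113, 55), (131, 22), (137, 0),
    (149, 130), (167, 0), (173, 0), (191, 0), (227, 0), (239, 0)]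

open Finset Pool.Agent.Y18.GX Pool.Agent.Q22.GX

lemma sum_Icc {N : ℕ} (f : ℕ → ℂ) (h0 : f 0 = 0) (hN : f N = 0) :
    ∑ a ∈ Icc 1 N, f a = ∑ a ∈ range N, f a := by
  rcases Nat.eq_zero_or_pos N with h | h
  · subst h
    simp
  · have h1 : ∑ a ∈ range (N + 1), f a = ∑ a ∈ range N, f a + f N := Finset.sum_range_succ f N
    have h2 : ∑ a ∈ range (N + 1), f a = ∑ a ∈ Icc 1 N, f a + f 0 := by
      rw [Finset.sum_range_succ']
      congr 1
      refine Finset.sum_bij (fun a _ => a + 1) ?_ ?_ ?_ (fun _ _ => rfl)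
      · intro a ha
        have := mem_range.1 ha
        rw [mem_Icc]
        omega
      · intro a _ b _ hab
        omega
      · intro b hb
        rw [mem_Icc] at hb
        exact ⟨b - 1, mem_range.2 (by omega), by omega⟩
    rw [h1, hN, h0, add_zero, add_zero] at h2
    exact h2.symm

lemma lValue_eq {p m N : ℕ} (hN1 : N ≠ 1) (ψ : DirichletCharacter ℂ N) :
    lValue p m ψ = (1 - ψ (p : ZMod N) * (p : ℂ) ^ (m - 1)) * ((N : ℂ) ^ (m - 1) *
      ∑ a ∈ range N, ψ (a : ZMod N) * (((Polynomial.bernoulli m).eval ((a : ℚ) / N) : ℚ) : ℂ)) / m := by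
  unfold lValue genBernoulli
  rw [sum_Icc]
  · rw [Nat.cast_zero, DirichletCharacter.map_zero' ψ hN1, zero_mul]
  · rw [ZMod.natCast_self, DirichletCharacter.map_zero' ψ hN1, zero_mul]

lemma part_big {p s : ℕ} (hp : p.Prime) (h5 : 5 ≤ p) (h9 : p % 9 = 2 ∨ p % 9 = 5) (hchk : checkA p s = true)
    (K m N : ℕ) (hN : N = 1 * 3 ^ K) (hK : 2 ≤ K) (hm1 : 1 ≤ m) (hmp : m < p)
    (ψ : DirichletCharacter ℂ N) (hc : 3 ^ K ∣ ψ.conductor) (hpar : ψ (-1) = (-1) ^ m) :
    IsUnitAt p (lValue p m ψ) := by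
  subst hN
  have hN1 : 1 * 3 ^ K ≠ 1 := by
    rw [one_mul]
    exact (Nat.one_lt_pow (by omega) (by norm_num)).ne'
  rw [lValue_eq hN1]
  exact unit_big hp h5 h9 hchk hK hm1 hmp ψ hc hpar

lemma general {p s m₀ : ℕ} (hp : p.Prime) (h5 : 5 ≤ p) (h9 : p % 9 = 2 ∨ p % 9 = 5) (hA : checkA p s = true)
    (hB : checkB p m₀ = true) (K m : ℕ) (hm1 : 1 ≤ m) (hmp : m ≤ p - 1) (hK0 : K = 0 → m ≠ p - 1)
    (hK1 : K ≤ 1 → m ≠ m₀) (ψ : DirichletCharacter ℂ (3 ^ K)) (hprim : ψ.IsPrimitive)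
    (hpar : ψ (-1) = (-1) ^ m) : IsUnitAt p (lValue p m ψ) := by
  have hpos := hp.pos
  rcases Nat.lt_or_ge K 2 with hK | hK
  · rcases Nat.lt_or_ge K 1 with hK' | hK'
    · -- `K = 0`
      have h0 : K = 0 := by omega
      subst h0
      have hψ : ∀ x, ψ x = 1 := fun x => by
        have : x = 1 := Subsingleton.elim (α := ZMod 1) x 1
        rw [this, map_one]
      rw [hψ] at hpar
      have hm : m % 2 = 0 := by
        rcases Nat.even_or_odd m with h | h
        · exact Nat.even_iff.1 h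
        · rw [h.neg_one_pow] at hpar
          norm_num at hpar
      have key := unit_zero hp h5 hB hm hm1 (by have := hK0 rfl; omega) (hK1 (by omega))
      have e : lValue p m ψ = (1 - (p : ℂ) ^ (m - 1)) * ((_root_.bernoulli m : ℚ) : ℂ) / m := by
        unfold lValue genBernoulli
        simp only [hψ, pow_zero, Icc_self, sum_singleton, Nat.cast_one, div_one, one_mul, one_pow]
        rw [Polynomial.bernoulli_eval_one, ← bernoulli_eq_bernoulli'_of_ne_one (by omega)]
      rw [e]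
      exact key
    · -- `K = 1`
      have h1 : K = 1 := by omega
      subst h1
      have hψ1 : ψ ≠ 1 := by
        intro h
        rw [h, DirichletCharacter.isPrimitive_def, DirichletCharacter.conductor_one] at hprim
        norm_num at hprim
      have hψ2 : ψ 2 = -1 := by
        have h2 : ψ 2 ^ 2 = 1 := by
          rw [← map_pow]
          have : (2 : ZMod (3 ^ 1)) ^ 2 = 1 := by decide
          rw [this, map_one]
        have h2' : (ψ 2 - 1) * (ψ 2 + 1) = 0 := by linear_combination h2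
        rcases mul_eq_zero.1 h2' with h3 | h3
        · rw [sub_eq_zero] at h3
          exfalso
          apply hψ1
          ext U
          have h4 : ∀ x : ZMod (3 ^ 1), IsUnit x → x = 1 ∨ x = 2 := by decide
          rcases h4 U U.isUnit with h5 | h5
          · rw [h5, map_one, MulChar.one_apply isUnit_one]
          · rw [h5, h3]
            have : IsUnit (2 : ZMod (3 ^ 1)) := h5 ▸ U.isUnit
            rw [MulChar.one_apply this]
        · exact eq_neg_of_add_eq_zero_left h3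
      have hneg : (-1 : ZMod (3 ^ 1)) = 2 := by decide
      rw [hneg, hψ2] at hpar
      have hm : m % 2 = 1 := by
        rcases Nat.even_or_odd m with h | h
        · rw [h.neg_one_pow] at hpar
          norm_num at hpar
        · exact Nat.odd_iff.1 h
      have hpz : (p : ZMod (3 ^ 1)) = 2 := by
        have h6 : p % 3 = 2 := by omega
        have h7 : ((p % 3 : ℕ) : ZMod (3 ^ 1)) = (p : ZMod (3 ^ 1)) := ZMod.natCast_mod p (3 ^ 1)
        rw [← h7, h6]
        rfl
      have h33 : (3 : ℕ) ^ 1 ≠ 1 := by norm_num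
      rw [lValue_eq h33, hpz, hψ2]
      have h0 : ψ ((0 : ℕ) : ZMod (3 ^ 1)) = 0 := by
        rw [Nat.cast_zero]
        exact DirichletCharacter.map_zero' ψ h33
      have h1 : ψ ((1 : ℕ) : ZMod (3 ^ 1)) = 1 := by rw [Nat.cast_one, map_one]
      have h2 : ψ ((2 : ℕ) : ZMod (3 ^ 1)) = -1 := by
        have : ((2 : ℕ) : ZMod (3 ^ 1)) = 2 := by decide
        rw [this, hψ2]
      have hr : range (3 ^ 1) = {0, 1, 2} := by decide
      rw [hr, Finset.sum_insert (by decide), Finset.sum_insert (by decide), Finset.sum_singleton, h0, h1, h2]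
      rcases Nat.lt_or_ge m 3 with hm3 | hm3
      · have : m = 1 := by omega
        subst this
        refine unit_rat (-2) 3 (by norm_num) (by norm_num) ?_ (coprime_nat hp (m := 3) (by norm_num) (by omega)) ?_
        · exact (coprime_nat hp (m := 2) (by norm_num) (by omega)).neg_right
        · simp only [Polynomial.bernoulli_one, Polynomial.eval_sub, Polynomial.eval_X, Polynomial.eval_C]
          push_cast
          norm_num
      · have key := unit_three hp h5 hB hm hm3 (by omega) (hK1 le_rfl)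
        have e : (1 - -1 * (p : ℂ) ^ (m - 1)) * (((3 ^ 1 : ℕ) : ℂ) ^ (m - 1) *
            (0 * ↑(Polynomial.eval (((0 : ℕ) : ℚ) / ((3 ^ 1 : ℕ) : ℚ)) (Polynomial.bernoulli m)) +
              (1 * ↑(Polynomial.eval (((1 : ℕ) : ℚ) / ((3 ^ 1 : ℕ) : ℚ)) (Polynomial.bernoulli m)) +
                -1 * ↑(Polynomial.eval (((2 : ℕ) : ℚ) / ((3 ^ 1 : ℕ) : ℚ)) (Polynomial.bernoulli m))))) / (m : ℂ) =
            (1 + (p : ℂ) ^ (m - 1)) * ((3 : ℂ) ^ (m - 1) *
      ((((Polynomial.bernoulli m).eval ((1 : ℚ) / 3) : ℚ) : ℂ) - (((Polynomial.bernoulli m).eval ((2 : ℚ) / 3) : ℚ) : ℂ))) / m := by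
          have c1 : (((1 : ℕ) : ℚ) / ((3 ^ 1 : ℕ) : ℚ)) = 1 / 3 := by norm_num
          have c2 : (((2 : ℕ) : ℚ) / ((3 ^ 1 : ℕ) : ℚ)) = 2 / 3 := by norm_num
          rw [c1, c2]
          push_cast
          ring
        rw [e]
        exact key
  · have hN : 3 ^ K = 1 * 3 ^ K := (one_mul _).symm
    exact part_big hp h5 h9 hA K m (3 ^ K) hN hK hm1 (by omega) ψ
      (by rw [DirichletCharacter.isPrimitive_def] at hprim; rw [hprim]) hpar

/-- **Unit `p`-adic `L`-values for all conductors `3^K`.** Let `(p, m₀)` be in the table, `ψ` a primitive Dirichlet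
character modulo `3^K` (`K ≥ 0`), `1 ≤ m ≤ p - 1` and `ψ(-1) = (-1)^m`, not `K = 0`, `m = p - 1`, and not
`K ≤ 1`, `m = m₀`. Then `(1 - ψ(p) p^(m-1)) B_{m,ψ} / m` is a unit at all places above `p`. -/
theorem result (p m₀ : ℕ) (hp : (p, m₀) ∈ table) (K m : ℕ) (hm1 : 1 ≤ m) (hmp : m ≤ p - 1)
    (hK0 : K = 0 → m ≠ p - 1) (hK1 : K ≤ 1 → m ≠ m₀) (ψ : DirichletCharacter ℂ (3 ^ K)) (hprim : ψ.IsPrimitive)
    (hpar : ψ (-1) = (-1) ^ m) : IsUnitAt p (lValue p m ψ) := by
  simp only [table, List.mem_cons, Prod.mk.injEq, List.not_mem_nil, or_false] at hp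
  rcases hp with ⟨rfl, rfl⟩ | ⟨rfl, rfl⟩ | ⟨rfl, rfl⟩ | ⟨rfl, rfl⟩ | ⟨rfl, rfl⟩ | ⟨rfl, rfl⟩ | ⟨rfl, rfl⟩ |
    ⟨rfl, rfl⟩ | ⟨rfl, rfl⟩ | ⟨rfl, rfl⟩ | ⟨rfl, rfl⟩ | ⟨rfl, rfl⟩ | ⟨rfl, rfl⟩ | ⟨rfl, rfl⟩ | ⟨rfl, rfl⟩ |
    ⟨rfl, rfl⟩ | ⟨rfl, rfl⟩
  · exact general (by norm_num) (by norm_num) (by norm_num) A11 B11 K m hm1 hmp hK0 hK1 ψ hprim hpar
  · exact general (by norm_num) (by norm_num) (by norm_num) A23 B23 K m hm1 hmp hK0 hK1 ψ hprim hpar
  · exact general (by norm_num) (by norm_num) (by norm_num) A29 B29 K m hm1 hmp hK0 hK1 ψ hprim hpar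
  · exact general (by norm_num) (by norm_num) (by norm_num) A41 B41 K m hm1 hmp hK0 hK1 ψ hprim hpar
  · exact general (by norm_num) (by norm_num) (by norm_num) A47 B47 K m hm1 hmp hK0 hK1 ψ hprim hpar
  · exact general (by norm_num) (by norm_num) (by norm_num) A59 B59 K m hm1 hmp hK0 hK1 ψ hprim hpar
  · exact general (by norm_num) (by norm_num) (by norm_num) A83 B83 K m hm1 hmp hK0 hK1 ψ hprim hpar
  · exact general (by norm_num) (by norm_num) (by norm_num) A101 B101 K m hm1 hmp hK0 hK1 ψ hprim hpar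
  · exact general (by norm_num) (by norm_num) (by norm_num) A113 B113 K m hm1 hmp hK0 hK1 ψ hprim hpar
  · exact general (by norm_num) (by norm_num) (by norm_num) A131 B131 K m hm1 hmp hK0 hK1 ψ hprim hpar
  · exact general (by norm_num) (by norm_num) (by norm_num) A137 B137 K m hm1 hmp hK0 hK1 ψ hprim hpar
  · exact general (by norm_num) (by norm_num) (by norm_num) A149 B149 K m hm1 hmp hK0 hK1 ψ hprim hpar
  · exact general (by norm_num) (by norm_num) (by norm_num) A167 B167 K m hm1 hmp hK0 hK1 ψ hprim hpar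
  · exact general (by norm_num) (by norm_num) (by norm_num) A173 B173 K m hm1 hmp hK0 hK1 ψ hprim hpar
  · exact general (by norm_num) (by norm_num) (by norm_num) A191 B191 K m hm1 hmp hK0 hK1 ψ hprim hpar
  · exact general (by norm_num) (by norm_num) (by norm_num) A227 B227 K m hm1 hmp hK0 hK1 ψ hprim hpar
  · exact general (by norm_num) (by norm_num) (by norm_num) A239 B239 K m hm1 hmp hK0 hK1 ψ hprim hpar

end Pool.Agent.Results.MP_c2a07f_nt.ManyPrimesPowersOfThree
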