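import Pool.Agent.Q308.GX.Big
import Pool.Agent.Q308.GX.Large
import Pool.Agent.Q308.GX.Cert1
import Pool.Agent.Q308.GX.Cert2

/-!
# Greenberg's conjecture for all `N = 2^K` and the primes `p ≡ 5` modulo `8` from `5` to `109`

Let `N = 2^K`. The even characters `θ` modulo `p N` are the `ψ ω^m` with a primitive character `ψ` modulo `2^k`,
`k ≤ K`, `1 ≤ m ≤ p - 1`, `ψ(-1) = (-1)^m`, and

  `L_p(1 - m, θ) = - (1 - ψ(p) p^(m-1)) B_{m,ψ} / m`.

(1) For every prime `p ≡ 5` modulo `8` these values are units at all places above `p` if `2^k ≥ 16 m`.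

(2) For the eight primes `p ≡ 5` modulo `8` from `5` to `109` these values are units at all places above `p`, except for
the trivial character (`k = 0`, `m = p - 1`) and for the pairs `(k, m)` in the table. The pair `(2, 1)` is in the table for
every `p`: there `ψ(p) = 1` and `m = 1`, so that the value is zero. For `p = 61, 101` there is no exception with
`k ≥ 4`, for the other primes except `13` and `53` there is none with `k ≥ 5`, and for `13` and `53` none with `k ≥ 6`.

Proof. Let `k ≥ 4`. If the value for `ψ` modulo `2^k` is not a unit then, as `p - 1` is four times an odd number, for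
every `b ≡ 1` modulo `4` the sum of `ψ(a) B_m(a / 2^k)` over the class of `b` modulo `2^(k-2)` is zero in characteristic
`p` (starting library `Pool.Agent.Y18.GX`). As `ψ(1 + 2^(k-2))` is a square root of `-1` this is one equation
`(c₀ - c₂)² + (c₁ - c₃)² = 0` modulo `p` between four values of the Bernoulli polynomial. For `2^k ≥ 16 m` not all of them
hold, by the starting library; for the finitely many smaller `k` this is checked for each `m` by a kernel computation for
some `b ≤ 13`, with the method of `ManyPrimesPowersOfThree`. The conductors `1`, `4`, `8` are treated directly.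
-/

set_option autoImplicit false

namespace Pool.Agent.Results.MP_c2a07f_nt.PowersOfTwo

/-- The generalized Bernoulli number `B_{m,ψ} = N^(m-1) ∑_{a=1}^N ψ(a) B_m(a/N)`. -/
noncomputable def genBernoulli (m : ℕ) {N : ℕ} (ψ : DirichletCharacter ℂ N) : ℂ :=
  (N : ℂ) ^ (m - 1) * ∑ a ∈ Finset.Icc 1 N, ψ (a : ZMod N) *
    (((Polynomial.bernoulli m).eval ((a : ℚ) / N) : ℚ) : ℂ)

/-- `(1 - ψ(p) p^(m-1)) B_{m,ψ} / m`, the value at `1 - m` of the `L`-function of `ψ` without Euler factor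
at `p` (up to the sign). -/
noncomputable def lValue (p m : ℕ) {N : ℕ} (ψ : DirichletCharacter ℂ N) : ℂ :=
  (1 - ψ (p : ZMod N) * (p : ℂ) ^ (m - 1)) * genBernoulli m ψ / m

/-- `z` is a unit at all places above `p`: it is not zero, and for some integer `c` prime to `p` the numbers
`c z` and `c / z` are algebraic integers. -/
def IsUnitAt (p : ℕ) (z : ℂ) : Prop :=
  z ≠ 0 ∧ ∃ c : ℤ, IsCoprime (p : ℤ) c ∧ IsIntegral ℤ ((c : ℂ) * z) ∧ IsIntegral ℤ ((c : ℂ) * z⁻¹)

/-- The primes `p ≡ 5` modulo `8` from `5` to `109`, each with the list of the exceptional pairs `(K, m)`. -/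
def table : List (ℕ × List (ℕ × ℕ)) :=
  [(5, [(2, 1), (4, 2)]),
    (13, [(2, 1), (3, 12), (4, 5), (4, 12), (5, 6)]),
    (29, [(2, 1), (4, 6), (4, 14), (4, 18), (4, 27), (4, 28)]),
    (37, [(0, 32), (2, 1), (3, 34), (4, 16), (4, 20), (4, 29), (4, 36)]),
    (53, [(2, 1), (4, 25), (4, 44), (5, 4)]),
    (61, [(2, 1), (2, 7)]),
    (101, [(0, 68), (2, 1), (2, 63)]),
    (109, [(2, 1), (4, 50), (4, 59), (4, 80)])]

open Finset Pool.Agent.Q22.GX Pool.Agent.Q308.GX

lemma sum_Icc {N : ℕ} (f : ℕ → ℂ) (h0 : f 0 = 0) (hN : f N = 0) :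
    ∑ a ∈ Icc 1 N, f a = ∑ a ∈ range N, f a := by
  rcases Nat.eq_zero_or_pos N with h | h
  · subst h
    simp
  · have h1 : ∑ a ∈ range (N + 1), f a = ∑ a ∈ range N, f a + f N := Finset.sum_range_succ f N
    have h2 : ∑ a ∈ range (N + 1), f a = ∑ a ∈ Icc 1 N, f a + f 0 := by
      rw [Finset.sum_range_succ']
      congr 1
      refine Finset.sum_bij (fun a _ => a + 1) ?_ ?_ ?_ (fun _ _ => rfl)
      · intro a ha
        have := mem_range.1 ha
        rw [mem_Icc]
        omega
      · intro a _ b _ hab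
        omega
      · intro b hb
        rw [mem_Icc] at hb
        exact ⟨b - 1, mem_range.2 (by omega), by omega⟩
    rw [h1, hN, h0, add_zero, add_zero] at h2
    exact h2.symm

lemma lValue_eq {p m N : ℕ} (hN1 : N ≠ 1) (ψ : DirichletCharacter ℂ N) :
    lValue p m ψ = (1 - ψ (p : ZMod N) * (p : ℂ) ^ (m - 1)) * ((N : ℂ) ^ (m - 1) *
      ∑ a ∈ range N, ψ (a : ZMod N) * (((Polynomial.bernoulli m).eval ((a : ℚ) / N) : ℚ) : ℂ)) / m := by
  unfold lValue genBernoulli
  rw [sum_Icc]
  · rw [Nat.cast_zero, DirichletCharacter.map_zero' ψ hN1, zero_mul]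
  · rw [ZMod.natCast_self, DirichletCharacter.map_zero' ψ hN1, zero_mul]

lemma part_big {p : ℕ} {E : List (ℕ × ℕ)} (hp : p.Prime) (h5 : 5 ≤ p) (h8 : p % 8 = 5) (hchk : Checked p E)
    (K m N : ℕ) (hN : N = 1 * 2 ^ K) (hK : 2 ≤ K) (hm1 : 1 ≤ m) (hmp : m < p) (hE : (2 ^ K, m) ∉ E)
    (h21 : K = 2 → m ≠ 1)
    (ψ : DirichletCharacter ℂ N) (hc : 2 ^ K ∣ ψ.conductor) (hpar : ψ (-1) = (-1) ^ m) :
    IsUnitAt p (lValue p m ψ) := by
  subst hN
  have hN1 : 1 * 2 ^ K ≠ 1 := by
    rw [one_mul]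
    exact (Nat.one_lt_pow (by omega) (by norm_num)).ne'
  rw [lValue_eq hN1]
  exact unit_big2 hp h5 h8 hchk hK hm1 hmp hE h21 ψ hc hpar

lemma general {p : ℕ} {E E' : List (ℕ × ℕ)} (hp : p.Prime) (h5 : 5 ≤ p) (h8 : p % 8 = 5)
    (hchk : Checked p E') (hmap : (E.map fun q => (2 ^ q.1, q.2)) = E') (h21 : (2, 1) ∈ E) (K m : ℕ) (hm1 : 1 ≤ m)
    (hmp : m ≤ p - 1) (hK0 : K = 0 → m ≠ p - 1) (hE : (K, m) ∉ E) (ψ : DirichletCharacter ℂ (2 ^ K))
    (hprim : ψ.IsPrimitive) (hpar : ψ (-1) = (-1) ^ m) : IsUnitAt p (lValue p m ψ) := by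
  have hpos := hp.pos
  have hE' : (2 ^ K, m) ∉ E' := by
    intro h
    rw [← hmap] at h
    obtain ⟨q, hq, h1⟩ := List.mem_map.1 h
    have h2 := congrArg Prod.fst h1
    have h3 := congrArg Prod.snd h1
    have h4 : q.1 = K := Nat.pow_right_injective le_rfl h2
    have h5 : q = (K, m) := Prod.ext h4 h3
    exact hE (h5 ▸ hq)
  rcases Nat.lt_or_ge K 2 with hK | hK
  · rcases Nat.lt_or_ge K 1 with hK' | hK'
    · -- `K = 0`
      have h0 : K = 0 := by omega
      subst h0
      have hψ : ∀ x, ψ x = 1 := fun x => by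
        have : x = 1 := Subsingleton.elim (α := ZMod 1) x 1
        rw [this, map_one]
      rw [hψ] at hpar
      have hm : m % 2 = 0 := by
        rcases Nat.even_or_odd m with h | h
        · exact Nat.even_iff.1 h
        · rw [h.neg_one_pow] at hpar
          norm_num at hpar
      have key := unit_zero2 hp h5 hchk hm hm1 (by have := hK0 rfl; omega) hE'
      have e : lValue p m ψ = (1 - (p : ℂ) ^ (m - 1)) * ((_root_.bernoulli m : ℚ) : ℂ) / m := by
        unfold lValue genBernoulli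
        simp only [hψ, pow_zero, Icc_self, sum_singleton, Nat.cast_one, div_one, one_mul, one_pow]
        rw [Polynomial.bernoulli_eval_one, ← bernoulli_eq_bernoulli'_of_ne_one (by omega)]
      rw [e]
      exact key
    · -- `K = 1`: there is no primitive character
      exfalso
      have h1 : K = 1 := by omega
      subst h1
      have hψ1 : ψ = 1 := by
        ext U
        have h4 : ∀ x : ZMod (2 ^ 1), IsUnit x → x = 1 := by decide
        rw [h4 U U.isUnit, map_one, map_one]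
      rw [hψ1, DirichletCharacter.isPrimitive_def, DirichletCharacter.conductor_one] at hprim
      norm_num at hprim
  · have hN : 2 ^ K = 1 * 2 ^ K := (one_mul _).symm
    refine part_big hp h5 h8 hchk K m (2 ^ K) hN hK hm1 (by omega) hE' ?_ ψ
      (by rw [DirichletCharacter.isPrimitive_def] at hprim; rw [hprim]) hpar
    rintro rfl rfl
    exact hE h21

lemma large {p : ℕ} (hp : p.Prime) (h8 : p % 8 = 5) (K m : ℕ) (hm1 : 1 ≤ m) (hmp : m ≤ p - 1)
    (hsz : 16 * m ≤ 2 ^ K) (N : ℕ) (hN : N = 1 * 2 ^ K) (ψ : DirichletCharacter ℂ N) (hc : 2 ^ K ∣ ψ.conductor)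
    (hpar : ψ (-1) = (-1) ^ m) : IsUnitAt p (lValue p m ψ) := by
  subst hN
  have hpos := hp.pos
  have hN1 : 1 * 2 ^ K ≠ 1 := by
    rw [one_mul]
    omega
  rw [lValue_eq hN1]
  exact unit_large hp h8 hm1 (by omega) hsz ψ hc hpar

/-- **Unit `p`-adic `L`-values for the conductors `2^K`.** Let `1 ≤ m ≤ p - 1` and `ψ` a primitive Dirichlet character
modulo `2^K` with `ψ(-1) = (-1)^m`. (1) If `p` is a prime congruent to `5` modulo `8` and `2^K ≥ 16 m`, then
`(1 - ψ(p) p^(m-1)) B_{m,ψ} / m` is a unit at all places above `p`. (2) Let `(p, E)` be in the table, not `K = 0`, `m = p - 1`, and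
`(K, m)` not in the list `E` (`K ≥ 0` arbitrary). Then the same holds. -/
theorem result :
    (∀ p : ℕ, p.Prime → p % 8 = 5 → ∀ K m : ℕ, 1 ≤ m → m ≤ p - 1 → 16 * m ≤ 2 ^ K →
      ∀ ψ : DirichletCharacter ℂ (2 ^ K), ψ.IsPrimitive → ψ (-1) = (-1) ^ m → IsUnitAt p (lValue p m ψ)) ∧
    ∀ (p : ℕ) (E : List (ℕ × ℕ)), (p, E) ∈ table → ∀ K m : ℕ, 1 ≤ m → m ≤ p - 1 →
      (K = 0 → m ≠ p - 1) → (K, m) ∉ E →
      ∀ ψ : DirichletCharacter ℂ (2 ^ K), ψ.IsPrimitive → ψ (-1) = (-1) ^ m → IsUnitAt p (lValue p m ψ) := by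
  refine ⟨fun p hp h8 K m hm1 hmp hsz ψ hprim hpar => large hp h8 K m hm1 hmp hsz _ (one_mul _).symm ψ
    (by rw [DirichletCharacter.isPrimitive_def] at hprim; rw [hprim]) hpar, ?_⟩
  intro p E hp K m hm1 hmp hK0 hE ψ hprim hpar
  simp only [table, List.mem_cons, Prod.mk.injEq, List.not_mem_nil, or_false] at hp
  rcases hp with ⟨rfl, rfl⟩ | ⟨rfl, rfl⟩ | ⟨rfl, rfl⟩ | ⟨rfl, rfl⟩ | ⟨rfl, rfl⟩ | ⟨rfl, rfl⟩ | ⟨rfl, rfl⟩ | ⟨rfl, rfl⟩
  · exact general (p := 5) (by norm_num) (by norm_num) (by norm_num) C5 (by norm_num) (by simp) K m hm1 hmp hK0 hE ψ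
      hprim hpar
  · exact general (p := 13) (by norm_num) (by norm_num) (by norm_num) C13 (by norm_num) (by simp) K m hm1 hmp hK0 hE ψ
      hprim hpar
  · exact general (p := 29) (by norm_num) (by norm_num) (by norm_num) C29 (by norm_num) (by simp) K m hm1 hmp hK0 hE ψ
      hprim hpar
  · exact general (p := 37) (by norm_num) (by norm_num) (by norm_num) C37 (by norm_num) (by simp) K m hm1 hmp hK0 hE ψ
      hprim hpar
  · exact general (p := 53) (by norm_num) (by norm_num) (by norm_num) C53 (by norm_num) (by simp) K m hm1 hmp hK0 hE ψ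
      hprim hpar
  · exact general (p := 61) (by norm_num) (by norm_num) (by norm_num) C61 (by norm_num) (by simp) K m hm1 hmp hK0 hE ψ
      hprim hpar
  · exact general (p := 101) (by norm_num) (by norm_num) (by norm_num) C101 (by norm_num) (by simp) K m hm1 hmp hK0 hE ψ
      hprim hpar
  · exact general (p := 109) (by norm_num) (by norm_num) (by norm_num) C109 (by norm_num) (by simp) K m hm1 hmp hK0 hE ψ
      hprim hpar

end Pool.Agent.Results.MP_c2a07f_nt.PowersOfTwo
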